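import Mathlib
import Pool.Agent.W2helper23.SG.Stm

/-!
# The group theoretic decomposition with the values on `X`
-/

set_option autoImplicit false
set_option linter.unusedSectionVars false

namespace Pool.Agent.W2helper11.SGT

open Pool.Agent.R389 Pool.Agent.K4H74.ST Pool.Agent.K4H85.ST
open Pool.Agent.H302R2 Pool.Agent.H302R3 Pool.Agent.H541R3.ART Pool.Agent.W446.AS

/-- functions in `JJ Y` vanish on the conjugation-invariant set `Y` -/
lemma JJ_vanish {G : Type} [Group G] [Finite G] {Y : Set G}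
    (hY : ∀ y ∈ Y, ∀ x : G, x⁻¹ * y * x ∈ Y) {f : G → ℂ} (hf : f ∈ JJ Y) {y : G} (hy : y ∈ Y) :
    f y = 0 := by
  classical
  have : Fintype G := Fintype.ofFinite G
  have h1 : JJ Y ≤ (AddMonoidHom.ker (Pi.evalAddMonoidHom (fun _ : G => ℂ) y)) := by
    rw [JJ, AddSubgroup.closure_le]
    rintro _ ⟨H, ψ, hH, rfl⟩
    rw [SetLike.mem_coe, AddMonoidHom.mem_ker]
    change ind H (fun h => ((ψ h : ℂˣ) : ℂ)) y = 0
    rw [ind_eq, Finset.sum_eq_zero, mul_zero]
    intro x _
    exact ext_not _ _ (hH _ (hY y hy x))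
  exact h1 hf

/-- **The group theoretic decomposition with the values on `X`.** -/
theorem SG12 : Pool.Agent.W2helper23.SG.P_SG12 := by
  intro Γ G _ _ _ _ X hX hXc π hcom χ hv
  classical
  have hF : ∀ g x : Γ, (fun h => χ (π h)) (x * g * x⁻¹) = (fun h => χ (π h)) g :=
    fun g x => (hv.comp π).conj g x
  refine (AddSubgroup.closure_le _).mpr ?_ (class_mem_sol hF)
  rintro _ ⟨U, hU, rfl⟩
  rw [SetLike.mem_coe]
  by_cases hx : ∃ x ∈ X, x ∈ U
  swap
  · push Not at hx
    exact AddSubgroup.mem_sup_left (virt_free U hx (hv.comp (π.comp U.subtype)))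
  obtain ⟨c, hc, hcU⟩ := hx
  obtain ⟨p, hp, c₀, hcop, hcn, hpw⟩ := hU
  by_cases hp2 : p = 2
  · subst hp2
    let C : Subgroup U := Subgroup.zpowers c₀
    have hCn : C.Normal := ⟨fun x hx u => conj_zpowers hcn u hx⟩
    have hCc : ∀ a b : C, a * b = b * a := zpowers_comm c₀
    have hCo : Odd (Nat.card C) := by
      rw [Nat.card_zpowers]
      exact Nat.coprime_two_right.mp hcop
    obtain ⟨τ, hτ, hτ2⟩ := exists_tau C hCo hpw
    let P : U →* G := π.comp U.subtype
    let f : U → ℂ := fun u => χ (P u)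
    have h1 : f - (fun u => f (τ u)) ∈ JJ {x : U | (x : Γ) ∈ X} := by
      let D : (P.range → ℂ) →+ (U → ℂ) := AddMonoidHom.mk'
        (fun g => (fun u => g (P.rangeRestrict u)) - (fun u => g (P.rangeRestrict (τ u))))
        (fun a b => by
          funext u
          simp only [Pi.sub_apply, Pi.add_apply]
          ring)
      have h2 : AddSubgroup.closure (Irr P.range) ≤ (JJ {x : U | (x : Γ) ∈ X}).comap D := by
        rw [AddSubgroup.closure_le]
        intro φ hφ
        rw [SetLike.mem_coe, AddSubgroup.mem_comap]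
        refine two_irr (fun x hx => ?_) C hCc hCo τ hτ P.rangeRestrict_surjective ?_ hφ
        · exact Subtype.ext (hX x hx).1
        · intro x hx h hh
          apply Subtype.ext
          exact hcom x hx h (congrArg Subtype.val hh)
      have h3 := h2 (hv.comp P.range.subtype)
      exact h3
    have h4 : ind U f = ind U (f - (fun u => f (τ u))) + ind U (fun u => f (τ u)) := by
      rw [← ind_add, sub_add_cancel]
    change ind U f ∈ _
    rw [h4]
    refine add_mem (AddSubgroup.mem_sup_left (ind_JJ U h1)) (AddSubgroup.mem_sup_right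
      (AddSubgroup.subset_closure ⟨U, P.comp τ, fun u => ?_, fun u hu => ?_, rfl⟩))
    · obtain ⟨k, hk⟩ := hτ2 u
      exact ⟨k, by rw [MonoidHom.comp_apply, ← map_pow, hk, map_one]⟩
    · have h5 := JJ_vanish (Y := {x : U | (x : Γ) ∈ X})
        (fun y hy x => hXc y hy x) h1 (y := u) hu
      rw [Pi.sub_apply, sub_eq_zero] at h5
      exact h5.symm
  · refine AddSubgroup.mem_sup_right (AddSubgroup.subset_closure
      ⟨U, π.comp U.subtype, fun u => ⟨1, ?_⟩, fun u _ => rfl, rfl⟩)
    have h1 : u * ⟨c, hcU⟩ = ⟨c, hcU⟩ * u := by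
      refine central_of_odd hp hp2 hcn hpw ?_ ?_ u
      · exact Subtype.ext (hX c hc).1
      · intro h
        exact (hX c hc).2 (congrArg Subtype.val h)
    have h2 := hcom c hc u (congrArg Subtype.val h1)
    rw [pow_one, pow_two]
    exact h2

end Pool.Agent.W2helper11.SGT
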