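import Mathlib
import Pool.Agent.W2helper23.SG.Stm

/-!
# Characters with values in `2`-groups
-/

set_option autoImplicit false
set_option linter.unusedSectionVars false

namespace Pool.Agent.W2helper11.SGT

open NumberField NumberField.ComplexEmbedding Pool.Agent.R389 Pool.Agent.K4H74.ST
open Pool.Agent.H302R2 Pool.Agent.H302R3 Pool.Agent.H541R3.ART Pool.Agent.W446.AS
open Pool.Agent.W2helper23.SG

section add

variable {M : Type} [CommGroup M] {B : ArtinInvariant M} {F N : Type} [Field F] [NumberField F]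
  [Field N] [NumberField N] [Algebra F N] [IsGalois F N] {G : (F →+* ℂ) → M}

lemma form_zero : Form B F N G 0 := by
  classical
  refine ⟨0, fun _ => 0, fun φ c _ => by simp, ?_⟩
  simp only [zpow_zero, ite_self, Finset.prod_const_one, mul_one]
  exact Val.zero B

lemma form_add {f f' : (N ≃ₐ[F] N) → ℂ} (h : Form B F N G f) (h' : Form B F N G f') :
    Form B F N G (f + f') := by
  classical
  obtain ⟨m, e, h1, h2⟩ := h
  obtain ⟨m', e', h1', h2'⟩ := h'
  refine ⟨m + m', fun κ => e κ + e' κ, fun φ c hc => ?_, ?_⟩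
  · rw [Pi.add_apply, h1 φ c hc, h1' φ c hc]
    push_cast
    ring
  · have h3 := h2.add B h2'
    convert h3 using 1
    rw [mul_mul_mul_comm, ← zpow_add, ← Finset.prod_mul_distrib]
    congr 1
    refine Finset.prod_congr rfl fun κ _ => ?_
    by_cases hκ : IsReal κ
    · rw [if_pos hκ, if_pos hκ, if_pos hκ, zpow_add]
    · rw [if_neg hκ, if_neg hκ, if_neg hκ, mul_one]

lemma form_neg {f : (N ≃ₐ[F] N) → ℂ} (h : Form B F N G f) : Form B F N G (-f) := by
  classical
  obtain ⟨m, e, h1, h2⟩ := h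
  refine ⟨-m, fun κ => - e κ, fun φ c hc => ?_, ?_⟩
  · rw [Pi.neg_apply, h1 φ c hc]
    push_cast
    ring
  · have h3 := h2.neg B
    convert h3 using 1
    rw [mul_inv, zpow_neg, ← Finset.prod_inv_distrib]
    congr 1
    refine Finset.prod_congr rfl fun κ _ => ?_
    by_cases hκ : IsReal κ
    · rw [if_pos hκ, if_pos hκ, zpow_neg]
    · rw [if_neg hκ, if_neg hκ, inv_one]

variable (B F N G) in
/-- the functions of the form `Form` -/
def formS : AddSubgroup ((N ≃ₐ[F] N) → ℂ) where
  carrier := {f | Form B F N G f}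
  zero_mem' := form_zero
  add_mem' := form_add
  neg_mem' := form_neg

/-- linear characters of `2`-power order -/
lemma form_lc (hL : LinOK B) (hG : Good B F G) (ψ : (N ≃ₐ[F] N) →* ℂˣ) (k : ℕ)
    (hψ : ∀ g, ψ g ^ (2 ^ k) = 1) : Form B F N G (lc ψ) := by
  classical
  obtain ⟨N', i1, i2, i3, i4, i5, i6, ε, hε, hεψ, hval⟩ := hL F N ψ k hψ
  refine ⟨1, fun κ => if Neg ε κ then -1 else 0, ?_, ?_⟩
  · intro φ c hc
    have hfin : FiniteDimensional N N' := Module.Finite.of_restrictScalars_finite ℚ N N'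
    let φ' : N' →+* ℂ := ComplexEmbedding.lift N' φ
    have hφ' : φ'.comp (algebraMap N N') = φ := ComplexEmbedding.lift_comp_algebraMap N' φ
    have hκ : φ'.comp (algebraMap F N') = φ.comp (algebraMap F N) := by
      rw [← hφ', RingHom.comp_assoc, ← IsScalarTower.algebraMap_eq F N N']
    obtain ⟨c', hc'⟩ := exists_conj (K := F) (φ := φ') (by rw [hκ]; exact hc.isReal_comp)
    have h1 : IsConj φ (AlgEquiv.restrictNormalHom N c') := by
      have := isConj_res (L := N) hc'
      rwa [hφ'] at this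
    have h2 : AlgEquiv.restrictNormalHom N c' = c := h1.ext hc
    have h3 : ψ c = ε c' := by rw [hεψ c' ⟨φ', hc'⟩, h2]
    have h4 : Neg ε (φ.comp (algebraMap F N)) ↔ ε c' = -1 := by
      constructor
      · rintro ⟨φ'', c'', h5, h6, h7⟩
        rw [← h7]
        exact conj_same ε hc' h5 (by rw [hκ, h6])
      · intro h
        exact ⟨φ', c', hc', hκ, h⟩
    beta_reduce
    rcases hε c' with h5 | h5
    · have h6 : ¬ Neg ε (φ.comp (algebraMap F N)) := by
        rw [h4, h5]
        exact fun h => neg_one_ne h.symm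
      rw [if_neg h6]
      unfold lc
      rw [h3, h5]
      simp
    · rw [if_pos (h4.mpr h5)]
      unfold lc
      rw [h3, h5]
      push_cast
      ring
  · have h1 : B.val F N (lc ψ) = (b1 B F ^ (1 : ℤ) * ∏ κ : F →+* ℂ,
        if IsReal κ then G κ ^ (if Neg ε κ then (-1 : ℤ) else 0) else 1) := by
      rw [hval, hG N' ε hε, zpow_one]
      congr 1
      refine Finset.prod_congr rfl fun κ _ => ?_
      by_cases h : Neg ε κ
      · have hr : IsReal κ := by
          obtain ⟨φ'', c'', h5, h6, -⟩ := h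
          rw [← h6]
          exact h5.isReal_comp
        rw [if_pos hr, if_pos h, if_pos h, zpow_neg_one]
      · rw [if_neg h, if_neg h, zpow_zero, ite_self]
    have h2 := Val.of_char B (IsChar.lc ψ)
    rw [h1] at h2
    exact h2

end add

/-- the induction on the index -/
theorem form_ind (h6 : P_SG6) (h9 : P_SG9) (h10 : P_SG10) {M : Type} [CommGroup M]
    (B : ArtinInvariant M) (hL : LinOK B)
    (Gf : (∀ (F : Type) [Field F] [NumberField F], (F →+* ℂ) → M))
    (hG : ∀ (F : Type) [Field F] [NumberField F], Good B F (Gf F))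
    (hQ : ∀ (F E N : Type) [Field F] [NumberField F] [Field E] [NumberField E] [Field N]
      [NumberField N] [Algebra F E] [Algebra E N] [Algebra F N] [IsScalarTower F E N]
      [IsGalois F N] (s : (N ≃ₐ[F] N) →* ℂˣ) (t : N ≃ₐ[F] N), QuadE F E N s t →
      QuadOK B F E N (Gf F) (Gf E) s) :
    ∀ (n : ℕ) (F N P : Type) [Field F] [NumberField F] [Field N] [NumberField N] [Algebra F N]
      [IsGalois F N] [Group P] [Finite P] (ρ : (N ≃ₐ[F] N) →* P),
      (∀ u, ∃ k : ℕ, ρ u ^ (2 ^ k) = 1) → ∀ (V : Subgroup (N ≃ₐ[F] N)) (ψ : V →* ℂˣ) (k : ℕ),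
      ρ.ker ≤ V → (∀ g, ψ g ^ (2 ^ k) = 1) → V.index = n →
      Form B F N (Gf F) (ind V (fun h => ((ψ h : ℂˣ) : ℂ))) := by
  intro n
  induction n using Nat.strong_induction_on with
  | _ n ih =>
  intro F N P _ _ _ _ _ _ _ _ ρ hρ V ψ k hV hψ hn
  have hfin : FiniteDimensional F N := Module.Finite.of_restrictScalars_finite ℚ F N
  by_cases hT : V = ⊤
  · subst hT
    let ψ' : (N ≃ₐ[F] N) →* ℂˣ :=
      ψ.comp (Subgroup.topEquiv (G := N ≃ₐ[F] N)).symm.toMonoidHom
    have h3 : ind (⊤ : Subgroup (N ≃ₐ[F] N)) (fun h => ((ψ h : ℂˣ) : ℂ)) = lc ψ' :=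
      ind_top (lc ψ') (fun g x => lin_conj ψ' g x)
    rw [h3]
    exact form_lc hL (hG F) ψ' k (fun g => hψ _)
  · obtain ⟨s, hs, ⟨t, ht⟩, hVs⟩ := h10 (N ≃ₐ[F] N) P ρ hρ V hV hT
    let E : IntermediateField F N := IntermediateField.fixedField s.ker
    have hmem : ∀ g : N ≃ₐ[F] N, s g = 1 ↔ ∀ x : E, g (x : N) = x := by
      intro g
      constructor
      · intro h x
        exact x.2 ⟨g, h⟩
      · intro h
        have h1 : g ∈ E.fixingSubgroup := by
          rw [IntermediateField.mem_fixingSubgroup_iff]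
          intro x hx
          exact h ⟨x, hx⟩
        rw [IntermediateField.fixingSubgroup_fixedField] at h1
        exact h1
    have hQE : QuadE F E N s t := by
      refine ⟨hs, ht, fun g => ?_⟩
      rw [hmem]
      constructor
      · intro h
        refine ⟨{ g.toRingEquiv with commutes' := fun x => h x }, ?_⟩
        ext x
        rfl
      · rintro ⟨h, rfl⟩ x
        exact h.commutes x
    obtain ⟨ι, hι, hind⟩ := h6 F E N s t hQE
    let j : (N ≃ₐ[E] N) →* (N ≃ₐ[F] N) := s.ker.subtype.comp ι.symm.toMonoidHom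
    have hjι : ∀ h : s.ker, j (ι h) = (h : N ≃ₐ[F] N) := by
      intro h
      change ((ι.symm (ι h) : s.ker) : N ≃ₐ[F] N) = h
      rw [MulEquiv.symm_apply_apply]
    let V' : Subgroup (N ≃ₐ[E] N) := V.comap j
    let ψ' : V' →* ℂˣ := ψ.comp (j.subgroupComap V)
    have hidx : V'.index < n := by
      have h1 : V'.index = V.relIndex s.ker := by
        change (V.comap j).index = _
        rw [Subgroup.index_comap]
        congr 1
        ext x
        constructor
        · rintro ⟨y, rfl⟩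
          exact (ι.symm y).2
        · intro hx
          exact ⟨ι ⟨x, hx⟩, hjι ⟨x, hx⟩⟩
      have h2 : V.relIndex s.ker * s.ker.index = n := by
        rw [← hn]
        exact Subgroup.relIndex_mul_index hVs
      have h3 : s.ker.index ≠ 1 := by
        intro h
        rw [Subgroup.index_eq_one] at h
        have h4 : t ∈ s.ker := by rw [h]; exact Subgroup.mem_top t
        rw [MonoidHom.mem_ker, ht] at h4
        exact neg_one_ne h4
      have h4 : s.ker.index ≠ 0 := Subgroup.index_ne_zero_of_finite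
      have h5 : V.index ≠ 0 := Subgroup.index_ne_zero_of_finite
      have h6 : V.relIndex s.ker ≠ 0 := by
        intro h
        rw [h, zero_mul] at h2
        rw [hn] at h5
        exact h5 h2.symm
      rw [h1, ← h2]
      have h7 : 2 ≤ s.ker.index := by omega
      have h8 : 0 < V.relIndex s.ker := Nat.pos_of_ne_zero h6
      calc V.relIndex s.ker < V.relIndex s.ker * 2 := by omega
        _ ≤ V.relIndex s.ker * s.ker.index := Nat.mul_le_mul_left _ h7
    have hE : Form B E N (Gf E) (ind V' (fun h => ((ψ' h : ℂˣ) : ℂ))) := by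
      refine ih _ hidx E N P (ρ.comp j) (fun u => hρ _) V' ψ' k ?_ (fun g => hψ _) rfl
      intro g hg
      exact hV hg
    have h1 := h9 M B F E N s t hQE (Gf F) (Gf E) (hQ F E N s t hQE) _ hE
    have h2 : indChar F E N (ind V' (fun h => ((ψ' h : ℂˣ) : ℂ)))
        = ind V (fun h => ((ψ h : ℂˣ) : ℂ)) := by
      rw [hind]
      have h3 : (fun h : s.ker => ind V' (fun h => ((ψ' h : ℂˣ) : ℂ)) (ι h))
          = ind (V'.comap ι.toMonoidHom) (fun h => ((ψ' ⟨ι.toMonoidHom h, h.2⟩ : ℂˣ) : ℂ)) :=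
        ind_comap (π := ι.toMonoidHom) ι.surjective V' (fun h => ((ψ' h : ℂˣ) : ℂ))
      rw [h3, ind_ind]
      refine ind_conj V _ 1 (fun z => ?_) _ _ (fun z hz => ?_)
      · rw [one_mul, inv_one, mul_one]
        constructor
        · rintro ⟨y, hy, rfl⟩
          have h4 : j (ι y) ∈ V := hy
          rw [hjι] at h4
          exact h4
        · intro hz
          refine ⟨⟨z, hVs hz⟩, ?_, rfl⟩
          change j (ι ⟨z, hVs hz⟩) ∈ V
          rw [hjι]
          exact hz
      · obtain ⟨y, hy, rfl⟩ := hz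
        have h4 : ((V'.comap ι.toMonoidHom).equivMapOfInjective s.ker.subtype
            s.ker.subtype_injective).symm ⟨s.ker.subtype y, ⟨y, hy, rfl⟩⟩ = ⟨y, hy⟩ := by
          rw [MulEquiv.symm_apply_eq]
          rfl
        unfold tr
        rw [h4]
        change ((ψ ⟨j (ι y), _⟩ : ℂˣ) : ℂ) = ((ψ _ : ℂˣ) : ℂ)
        congr 2
        apply Subtype.ext
        change j (ι y) = 1 * (y : N ≃ₐ[F] N) * 1⁻¹
        rw [hjι, one_mul, inv_one, mul_one]
    rw [← h2]
    exact h1

/-- **Characters with values in `2`-groups.** -/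
theorem SG11 (h6 : P_SG6) (h9 : P_SG9) (h10 : P_SG10) : P_SG11 := by
  intro M _ B hL Gf hG hQ F N P _ _ _ _ _ _ _ _ ρ hρ χ hχ
  classical
  have hfin : FiniteDimensional F N := Module.Finite.of_restrictScalars_finite ℚ F N
  have : Fact (Nat.Prime 2) := ⟨Nat.prime_two⟩
  have hR : IsPGroup 2 ρ.range := by
    rintro ⟨_, u, rfl⟩
    obtain ⟨k, hk⟩ := hρ u
    exact ⟨k, Subtype.ext hk⟩
  obtain ⟨k, hk⟩ := IsPGroup.iff_card.mp hR
  have h1 : (fun e : ρ.range => χ e) ∈ MonG ρ.range :=
    virt_mem_mon (hχ.comp ρ.range.subtype).virt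
  let Φ : (ρ.range → ℂ) →+ ((N ≃ₐ[F] N) → ℂ) :=
    AddMonoidHom.mk' (fun f u => f (ρ.rangeRestrict u)) (fun a b => rfl)
  have h2 : MonG ρ.range ≤ (formS B F N (Gf F)).comap Φ := by
    rw [MonG, AddSubgroup.closure_le]
    rintro _ ⟨W, ψ, -, rfl⟩
    rw [SetLike.mem_coe, AddSubgroup.mem_comap]
    have h3 : Φ (ind W (fun h => ((ψ h : ℂˣ) : ℂ)))
        = ind (W.comap ρ.rangeRestrict)
          (fun h => (((ψ.comp (ρ.rangeRestrict.subgroupComap W)) h : ℂˣ) : ℂ)) :=
      ind_comap ρ.rangeRestrict_surjective W (fun h => ((ψ h : ℂˣ) : ℂ))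
    rw [h3]
    refine form_ind h6 h9 h10 B hL Gf hG hQ _ F N P ρ hρ (W.comap ρ.rangeRestrict)
      (ψ.comp (ρ.rangeRestrict.subgroupComap W)) k ?_ ?_ rfl
    · intro g hg
      rw [Subgroup.mem_comap]
      have h4 : ρ.rangeRestrict g = 1 := Subtype.ext hg
      rw [h4]
      exact W.one_mem
    · intro g
      rw [← map_pow]
      have h4 : g ^ 2 ^ k ∈ (ψ.comp (ρ.rangeRestrict.subgroupComap W)).ker := by
        rw [MonoidHom.mem_ker, MonoidHom.comp_apply]
        have h5 : ρ.rangeRestrict.subgroupComap W (g ^ 2 ^ k) = 1 := by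
          rw [map_pow]
          apply Subtype.ext
          rw [Subgroup.coe_pow, ← hk, pow_card_eq_one', Subgroup.coe_one]
        rw [h5, map_one]
      exact h4
  exact h2 h1

end Pool.Agent.W2helper11.SGT
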