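import Pool.Agent.W2helper37.SG.Stm3

/-!
# Project SG, piece SCO: invariance for the orthosymplectic relations
-/

set_option autoImplicit false
set_option linter.unusedSectionVars false
set_option linter.unusedSimpArgs false

open Pool.Agent.W2helper37.SG

namespace Pool.Agent.W2helper11.SG

universe w

variable {K : Type w} [Field K] {ι : Type} [Fintype ι] [DecidableEq ι] {o : ι → Bool}
  {σ : ι → ι} {γ : ι → K} {N : ι → ℤ}
  {Q : Type w} [AddCommGroup Q] [Module K Q] {A : ι → ι → Module.End K Q}

theorem anti_even_odd (hF : FormIdx o σ γ N) (hA : OspRel o σ γ A) {c i : ι} (h : o c ≠ o i) :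
    A (σ i) c = -((γ c * (γ i)⁻¹) • A (σ c) i) := by
  have h1 := hA.anti (σ c) i
  unfold tauA at h1
  rw [hF.inv] at h1
  have hi := hF.ne i
  have hc := hF.ne c
  have e : cc K (o i) (o (σ c)) * γ i * (γ c)⁻¹ = γ i * (γ c)⁻¹ := by
    rw [hF.par]
    have : cc K (o i) (o c) = 1 := by
      cases h2 : o c <;> cases h3 : o i <;> simp [cc, h2, h3] at h ⊢
    rw [this, one_mul]
  rw [e] at h1
  have h2 : A (σ i) c = (γ c * (γ i)⁻¹) • ((γ i * (γ c)⁻¹) • A (σ i) c) := by
    rw [smul_smul]
    have : γ c * (γ i)⁻¹ * (γ i * (γ c)⁻¹) = 1 := by field_simp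
    rw [this, one_smul]
  rw [h2, h1, smul_neg]

theorem comm_one (hF : FormIdx o σ γ N) (hA : OspRel o σ γ A) {c c' k i : ι} (h1 : o c' = o c)
    (h2 : o k = o c) (h3 : o i ≠ o c) :
    A c c' * A k i - A k i * A c c' =
      -(if k = c' then sg K (o c) • A c i else 0) +
        (if c = σ k then (γ c' * (γ k)⁻¹) • A (σ c') i else 0) := by
  have h := hA.rel c c' k i
  have n1 : ¬ c = i := fun h' => h3 (by rw [h'])
  have n2 : ¬ c' = σ i := fun h' => h3 (by rw [← h1, h', hF.par])
  rw [if_neg n1, if_neg n2, h1, h2] at h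
  have e1 : cc K (o c) (o c) * cc K (o c) (o c) = 1 := by
    cases o c <;> simp [cc]
  have e2 : cc K (o c) (o i) = 1 := by
    cases h4 : o c <;> cases h5 : o i <;> simp [cc, h4, h5] at h3 ⊢
  have e3 : cc K (o c) (o c) = sg K (o c) := by
    cases o c <;> simp [cc, sg]
  rw [e1, e2, e3, one_mul, one_smul, one_smul] at h
  rw [h, zero_sub, add_zero, sub_eq_add_neg]
  congr 1
  rw [anti_even_odd hF hA (show o c' ≠ o i from fun h' => h3 (h'.symm.trans h1))]
  split_ifs
  · rw [smul_neg, neg_neg, smul_smul]
    congr 1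
    have hi := hF.ne i
    field_simp
  · simp

theorem comm_two (hF : FormIdx o σ γ N) (hA : OspRel o σ γ A) {c c' k i : ι} (h1 : o c' = o c)
    (h2 : o k = o c) (h3 : o i ≠ o c) :
    A c c' * A i k - A i k * A c c' =
      (if c = k then sg K (o c) • A i c' else 0) -
        (if c' = σ k then (γ k * (γ c)⁻¹) • A i (σ c) else 0) := by
  have h := hA.rel c c' i k
  have n1 : ¬ i = c' := fun h' => h3 (by rw [h', h1])
  have n2 : ¬ c = σ i := fun h' => h3 (by rw [h', hF.par])
  rw [if_neg n1, if_neg n2, h1, h2] at h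
  have e1 : cc K (o c) (o c) * cc K (o c) (o c) = 1 := by
    cases o c <;> simp [cc]
  have e2 : cc K (o c) (o i) = 1 := by
    cases h4 : o c <;> cases h5 : o i <;> simp [cc, h4, h5] at h3 ⊢
  have e3 : cc K (o c) (o c) = sg K (o c) := by
    cases o c <;> simp [cc, sg]
  rw [e1, e2, e3, one_mul, one_smul, one_smul] at h
  rw [h, sub_zero, sub_zero, sub_eq_add_neg]
  congr 1
  have e4 : A c (σ i) = (γ i * (γ c)⁻¹) • A i (σ c) := by
    have h4 := anti_even_odd hF hA (c := σ i) (i := σ c)
      (by rw [hF.par, hF.par]; exact h3)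
    rw [hF.inv, hF.inv, hF.sym, hF.sym] at h4
    rw [h4, ← neg_smul]
    congr 1
    have hi := hF.ne i
    have hc := hF.ne c
    cases h5 : o c <;> cases h6 : o i <;> simp [sg, h5, h6] at h3 ⊢
  rw [e4]
  split_ifs
  · rw [smul_smul, ← neg_smul]
    congr 1
    have hi := hF.ne i
    have hc := hF.ne c
    cases h5 : o c <;> cases h6 : o i <;> simp [sg, h5, h6] at h3 ⊢ <;> field_simp
  · simp

theorem aux_sum [CharZero K] (hF : FormIdx o σ γ N) (b : Bool) (F : ι → ι → K)
    (h : ∀ c c' l i, o c = b → o c' = b → o l = b → o i = b →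
      -(if l = c' then sg K b * F c i else 0) +
        (if c = σ l then (γ c' * (γ l)⁻¹) * F (σ c') i else 0) +
        (if c = i then sg K b * F l c' else 0) -
        (if c' = σ i then (γ i * (γ c)⁻¹) * F l (σ c) else 0) = 0)
    (k i : ι) (hk : o k = b) (hi : o i = b) :
    F k i + (γ i * (γ k)⁻¹) * F (σ i) (σ k) =
      if k = i then 2 * (∑ l with o l = b, F l l) / num o b else 0 := by
  have s2 : sg K b * sg K b = 1 := by cases b <;> simp [sg]
  have key : ∀ c i, o c = b → o i = b →
      (num o b : K) * F c i = (if c = i then ∑ l with o l = b, F l l else 0) +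
        sg K b * (F c i - (γ i * (γ c)⁻¹) * F (σ i) (σ c)) := by
    intro c i hc hi
    have h1 : ∑ l with o l = b, (-(if l = l then sg K b * F c i else 0) +
        (if c = σ l then (γ l * (γ l)⁻¹) * F (σ l) i else 0) +
        (if c = i then sg K b * F l l else 0) -
        (if l = σ i then (γ i * (γ c)⁻¹) * F l (σ c) else 0)) = 0 := by
      refine Finset.sum_eq_zero fun l hl => ?_
      have hl' := (Finset.mem_filter.1 hl).2
      exact h c l l i hc hl' hl' hi
    rw [Finset.sum_sub_distrib, Finset.sum_add_distrib, Finset.sum_add_distrib] at h1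
    have e1 : ∑ l with o l = b, -(if l = l then sg K b * F c i else 0) =
        -(num o b : K) * (sg K b * F c i) := by
      simp only [if_true]
      rw [Finset.sum_const, nsmul_eq_mul, num]
      ring
    have e2 : ∑ l with o l = b, (if c = σ l then (γ l * (γ l)⁻¹) * F (σ l) i else 0) = F c i := by
      rw [Finset.sum_eq_single (σ c)]
      · rw [hF.inv, if_pos rfl, mul_inv_cancel₀ (hF.ne _), one_mul]
      · intro l _ hl
        rw [if_neg]
        intro h'
        apply hl
        rw [h', hF.inv]
      · intro h'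
        exact absurd (Finset.mem_filter.2 ⟨Finset.mem_univ _, by rw [hF.par, hc]⟩) h'
    have e3 : ∑ l with o l = b, (if c = i then sg K b * F l l else 0) =
        sg K b * (if c = i then ∑ l with o l = b, F l l else 0) := by
      split_ifs
      · rw [Finset.mul_sum]
      · simp
    have e4 : ∑ l with o l = b, (if l = σ i then (γ i * (γ c)⁻¹) * F l (σ c) else 0) =
        (γ i * (γ c)⁻¹) * F (σ i) (σ c) := by
      rw [Finset.sum_ite_eq', if_pos (Finset.mem_filter.2 ⟨Finset.mem_univ _, by rw [hF.par, hi]⟩)]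
    rw [e1, e2, e3, e4] at h1
    have h2 := congrArg (fun x => sg K b * x) h1
    simp only [mul_zero] at h2
    linear_combination -h2 -
      ((num o b : K) * F c i - (if c = i then ∑ l with o l = b, F l l else 0)) * s2
  have hn : (num o b : K) ≠ 0 := by
    rw [Nat.cast_ne_zero]
    unfold num
    exact Finset.card_ne_zero_of_mem (Finset.mem_filter.2 ⟨Finset.mem_univ k, hk⟩)
  have k1 := key k i hk hi
  have k2 := key (σ i) (σ k) (by rw [hF.par, hi]) (by rw [hF.par, hk])
  rw [hF.inv, hF.inv, hF.sym, hF.sym, hk, hi] at k2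
  have hgi := hF.ne i
  have hgk := hF.ne k
  have hsb : sg K b ≠ 0 := by cases b <;> simp [sg]
  have e5 : sg K b * γ k * (sg K b * γ i)⁻¹ = γ k * (γ i)⁻¹ := by
    field_simp
  rw [e5] at k2
  by_cases hki : k = i
  · subst hki
    simp only [if_true] at k1 k2 ⊢
    rw [eq_div_iff hn]
    have e6 : γ k * (γ k)⁻¹ = 1 := mul_inv_cancel₀ hgk
    rw [e6] at k1 k2 ⊢
    linear_combination k1 + k2
  · rw [if_neg hki] at k1 ⊢
    rw [if_neg (fun h' => hki (by rw [← hF.inv k, ← h', hF.inv]))] at k2
    have e7 : (num o b : K) * (F k i + (γ i * (γ k)⁻¹) * F (σ i) (σ k)) = 0 := by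
      have e8 : γ i * (γ k)⁻¹ * (γ k * (γ i)⁻¹) = 1 := by field_simp
      linear_combination k1 + (γ i * (γ k)⁻¹) * k2 - sg K b * F k i * e8
    rcases mul_eq_zero.mp e7 with h' | h'
    · exact absurd h' hn
    · exact h'

theorem p_sco : P_SCO.{w} := by
  intro K _ _ ι _ _ o σ γ N hF Q _ _ _ A hA y hy k i hki
  set b := o k with hb
  have hi : o i = b := hki.symm
  let F : ι → ι → K := fun k i => ∑ j with o j ≠ b, LinearMap.trace K Q (y * (A k j * A j i))
  have h1 := aux_sum hF b F (by
    intro c c' l i hc hc' hl hi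
    have h2 : ∀ j, o j ≠ b →
        (A c c' * (A l j * A j i) - (A l j * A j i) * A c c') =
        -(if l = c' then sg K b • (A c j * A j i) else 0) +
        (if c = σ l then (γ c' * (γ l)⁻¹) • (A (σ c') j * A j i) else 0) +
        (if c = i then sg K b • (A l j * A j c') else 0) -
        (if c' = σ i then (γ i * (γ c)⁻¹) • (A l j * A j (σ c)) else 0) := by
      intro j hj
      have e1 : A c c' * (A l j * A j i) - (A l j * A j i) * A c c' =
          (A c c' * A l j - A l j * A c c') * A j i +
            A l j * (A c c' * A j i - A j i * A c c') := by noncomm_ring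
      rw [e1, comm_one hF hA (hc'.trans hc.symm) (hl.trans hc.symm) (by rw [hc]; exact hj),
        comm_two hF hA (hc'.trans hc.symm) (hi.trans hc.symm) (by rw [hc]; exact hj), hc,
        add_mul, mul_sub, neg_mul, add_sub_assoc]
      simp only [ite_mul, mul_ite, zero_mul, mul_zero, smul_mul_assoc, mul_smul_comm]
    have h3 : ∀ j, LinearMap.trace K Q (y * (A c c' * (A l j * A j i) -
        (A l j * A j i) * A c c')) = 0 := by
      intro j
      rw [mul_sub, map_sub, ← mul_assoc, (hy c c' (hc.trans hc'.symm)).eq, mul_assoc,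
        LinearMap.trace_mul_comm, mul_assoc, sub_self]
    have h4 : ∑ j with o j ≠ b, LinearMap.trace K Q (y * (-(if l = c' then sg K b • (A c j * A j i)
        else 0) +
        (if c = σ l then (γ c' * (γ l)⁻¹) • (A (σ c') j * A j i) else 0) +
        (if c = i then sg K b • (A l j * A j c') else 0) -
        (if c' = σ i then (γ i * (γ c)⁻¹) • (A l j * A j (σ c)) else 0))) = 0 := by
      refine Finset.sum_eq_zero fun j hj => ?_
      rw [← h2 j (Finset.mem_filter.1 hj).2, h3]
    refine Eq.trans ?_ h4
    simp only [F, Finset.mul_sum]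
    have g : ∀ (p : Prop) [Decidable p] (f : ι → K), (if p then ∑ j with o j ≠ b, f j else 0) =
        ∑ j with o j ≠ b, (if p then f j else 0) := by
      intro p _ f
      split_ifs <;> simp
    rw [g, g, g, g, ← Finset.sum_neg_distrib, ← Finset.sum_add_distrib, ← Finset.sum_add_distrib,
      ← Finset.sum_sub_distrib]
    refine Finset.sum_congr rfl fun j _ => ?_
    have g2 : ∀ (p : Prop) [Decidable p] (t : K) (X : Module.End K Q),
        LinearMap.trace K Q (y * (if p then t • X else 0)) =
          if p then t * LinearMap.trace K Q (y * X) else 0 := by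
      intro p _ t X
      split_ifs
      · rw [mul_smul_comm, map_smul, smul_eq_mul]
      · simp
    rw [mul_sub, mul_add, mul_add, mul_neg, map_sub, map_add, map_add, map_neg, g2, g2, g2, g2]) k i
      rfl hi
  have h5 : ∑ l with o l = b, F l l = LinearMap.trace K Q (y * XX o A b) := by
    unfold XX
    simp only [Finset.mul_sum, map_sum, F]
  rw [← h5]
  exact h1

end Pool.Agent.W2helper11.SG
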